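import Pool.Agent.Helper22.LN.Push
import Pool.Agent.Helper64.LN.GoalsB

set_option autoImplicit false

/-! Project LN, packet FGA (paths in a compact set avoiding the punctures). -/

open Topology Filter Set Metric UpperHalfPlane
open scoped MatrixGroups

namespace Pool.Agent.Helper22.LN

open Pool.Agent.Helper64.LN
open Pool.Agent.Helper64

/-- Hyperbolic elements do not commute with a parabolic one. -/
lemma nc_pi (g A : SL(2, ℝ)) (hg : 2 < |g 0 0 + g 1 1|) : Nc (mh g) (piA A) := by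
  intro h
  unfold piA at h
  have e : mh (g * (A * PQ.T1 * A⁻¹)) = mh ((A * PQ.T1 * A⁻¹) * g) := by
    rw [map_mul mh g, map_mul mh _ g]; exact h
  have htr : (A⁻¹ * g * A) 0 0 + (A⁻¹ * g * A) 1 1 = g 0 0 + g 1 1 := by
    have hdet := A.det_coe
    rw [Matrix.det_fin_two] at hdet
    simp only [Matrix.SpecialLinearGroup.coe_mul, Matrix.SpecialLinearGroup.coe_inv,
      Matrix.adjugate_fin_two, Matrix.mul_apply, Fin.sum_univ_two, Matrix.of_apply,
      Matrix.cons_val', Matrix.cons_val_zero, Matrix.cons_val_one, Matrix.cons_val_fin_one]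
    linear_combination (g 0 0 + g 1 1) * hdet
  have hdk := (A⁻¹ * g * A).det_coe
  rw [Matrix.det_fin_two] at hdk
  have hT : ∀ i j, (PQ.T1 : SL(2, ℝ)) i j = !![1, 1; 0, (1 : ℝ)] i j := fun i j => rfl
  have hL : ∀ k : SL(2, ℝ), (k * PQ.T1) 0 0 = k 0 0 ∧ (k * PQ.T1) 0 1 = k 0 0 + k 0 1 ∧
      (k * PQ.T1) 1 0 = k 1 0 ∧ (k * PQ.T1) 1 1 = k 1 0 + k 1 1 := by
    intro k
    refine ⟨?_, ?_, ?_, ?_⟩ <;>
    · rw [Matrix.SpecialLinearGroup.coe_mul, Matrix.mul_apply, Fin.sum_univ_two, hT, hT]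
      simp
  have hR : ∀ k : SL(2, ℝ), (PQ.T1 * k) 0 0 = k 0 0 + k 1 0 ∧
      (PQ.T1 * k) 0 1 = k 0 1 + k 1 1 ∧
      (PQ.T1 * k) 1 0 = k 1 0 ∧ (PQ.T1 * k) 1 1 = k 1 1 := by
    intro k
    refine ⟨?_, ?_, ?_, ?_⟩ <;>
    · rw [Matrix.SpecialLinearGroup.coe_mul, Matrix.mul_apply, Fin.sum_univ_two, hT, hT]
      simp
  generalize hk : A⁻¹ * g * A = k at *
  rw [← htr] at hg
  obtain ⟨l1, l2, l3, l4⟩ := hL k
  obtain ⟨r1, r2, r3, r4⟩ := hR k
  have eL : k * PQ.T1 = A⁻¹ * (g * (A * PQ.T1 * A⁻¹)) * A := by rw [← hk]; group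
  have eR : PQ.T1 * k = A⁻¹ * ((A * PQ.T1 * A⁻¹) * g) * A := by rw [← hk]; group
  rcases (mh_eq_iff _ _).1 e with h1 | h1
  · have h2 : k * PQ.T1 = PQ.T1 * k := by rw [eL, eR, h1]
    rw [h2] at l1 l2 l3 l4
    have e1 : k 1 0 = 0 := by linarith
    have e2 : k 0 0 = k 1 1 := by linarith
    rw [e1, ← e2] at hdk
    rw [← e2] at hg
    have e3 : 2 ^ 2 < |k 0 0 + k 0 0| ^ 2 := by
      apply pow_lt_pow_left₀ hg (by norm_num) (by norm_num)
    rw [sq_abs] at e3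
    nlinarith
  · have h2 : k * PQ.T1 = -(PQ.T1 * k) := by rw [eL, eR, h1]; simp
    have hn : ∀ i j, (-(PQ.T1 * k) : SL(2, ℝ)) i j = -((PQ.T1 * k) i j) := fun i j => rfl
    rw [h2, hn] at l1 l2 l3 l4
    have e1 : k 1 0 = 0 := by linarith
    have e2 : k 0 0 = 0 := by linarith
    rw [e1, e2] at hdk
    norm_num at hdk

section
variable {X : Type*} [TopologicalSpace X]

lemma Sz_conj' {u : ℍ → X} {F G : ℍ ≃ₜ ℍ} (hF : F ∈ deck u) (hG : G ∈ deck u) (z w : ℍ) :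
    Sz (F * G * F⁻¹) (F z) (F w) ↔ Sz G z w := by
  obtain ⟨f, -, rfl⟩ := mem_deck.1 hF
  obtain ⟨g, -, rfl⟩ := mem_deck.1 hG
  exact Sz_conj f g z w

lemma Sz_trans {u : ℍ → X} {G : ℍ ≃ₜ ℍ} (hG : G ∈ deck u) {z₁ z₂ z₃ : ℍ}
    (h2 : z₂ ∉ ax G) (h12 : ¬ Sz G z₁ z₂) (h23 : ¬ Sz G z₂ z₃) :
    ¬ Sz G z₁ z₃ := by
  obtain ⟨g, -, rfl⟩ := mem_deck.1 hG
  rw [ax_mh] at h2
  rw [Sz_mh] at *
  intro h
  have a1 := not_lt.1 h12
  have a2 := not_lt.1 h23
  have a3 : 0 < sf g z₂ ^ 2 := by positivity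
  have a4 : sf g z₁ * sf g z₂ * (sf g z₂ * sf g z₃) = sf g z₂ ^ 2 * (sf g z₁ * sf g z₃) := by
    ring
  have a5 := mul_nonneg a1 a2
  rw [a4] at a5
  have a6 := mul_neg_of_pos_of_neg a3 h
  linarith

end

/-- **GOAL FGA.** -/
theorem goalFGA.{v} (G0 : GoalG0.{v}) (CR3 : GoalCR3) (PRE : GoalPRE.{v}) (REG : GoalREG.{v})
    (SZ : GoalSZ) (CU1 : GoalCU1.{v}) : GoalFGA.{v} := by
  classical
  intro X _ _ p P u C K γ ω W A ζ hC hB
  have hΓ : Good (PQ.deckG u) := G0 X (insert p P) u hC.uni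
  have hKc : IsClosed K := hC.comp.isClosed
  obtain ⟨hax, hpre⟩ := PRE X p P u C K γ ω hC
  have hint : ∀ x ∈ K, x ∉ C '' sphere (0 : ℂ) 1 → x ∈ interior K := by
    intro x hx hxc
    by_contra h
    apply hxc
    rw [← hC.fr, frontier]
    exact ⟨subset_closure hx, h⟩
  have hintc : ∀ x ∈ interior K, x ∉ C '' sphere (0 : ℂ) 1 := by
    intro x hx hxc
    rw [← hC.fr, frontier] at hxc
    exact hxc.2 hx
  have hsph : sphere (0 : ℂ) 1 ⊆ C.source := by
    intro z hz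
    rw [hC.src]
    rw [mem_sphere_zero_iff_norm] at hz
    change 1 / 2 < ‖z‖ ∧ ‖z‖ < 2
    rw [hz]
    norm_num
  -- the point `z₁`
  have hz1 : u (W 0 (3 / 4)) = C (3 / 4) := by
    have := hB.lift 0 (3 / 4) (by constructor <;> norm_num)
    rw [this]
    congr 1
    simp
  have hn34 : ‖(3 / 4 : ℂ)‖ = 3 / 4 := by
    rw [show (3 / 4 : ℂ) = ((3 / 4 : ℝ) : ℂ) by push_cast; rfl, Complex.norm_real]
    norm_num
  have h34s : (3 / 4 : ℂ) ∈ C.source := by
    rw [hC.src]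
    change 1 / 2 < ‖(3 / 4 : ℂ)‖ ∧ ‖(3 / 4 : ℂ)‖ < 2
    rw [hn34]
    norm_num
  have hz1K : u (W 0 (3 / 4)) ∈ K := by
    rw [hz1, hC.col _ h34s, hn34]
    norm_num
  have hz1c : u (W 0 (3 / 4)) ∉ C '' sphere (0 : ℂ) 1 := by
    rw [hz1]
    rintro ⟨z, hz, hzz⟩
    have := C.injOn (hsph hz) h34s hzz
    rw [mem_sphere_zero_iff_norm, this, hn34] at hz
    norm_num at hz
  have hz1i := hint _ hz1K hz1c
  have hoff : ∀ z, u z ∉ C '' sphere (0 : ℂ) 1 → ∀ h ∈ deck u, z ∉ ax (h * γ * h⁻¹) := by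
    intro z hz h hh hcon
    exact hz ((hpre z).2 ⟨h, hh, hcon⟩)
  have hγ : γ ∈ deck u := hC.deck
  have hdk : ∀ h ∈ deck u, h * γ * h⁻¹ ∈ deck u := fun h hh =>
    (deck u).mul_mem ((deck u).mul_mem hh hγ) ((deck u).inv_mem hh)
  -- hyperbolicity of the conjugates
  have hhy : ∀ h ∈ deck u, ∃ m : SL(2, ℝ), h * γ * h⁻¹ = mh m ∧ 2 < |m 0 0 + m 1 1| := by
    intro h hh
    obtain ⟨e, he, hcr⟩ := hC.hp
    have hcr' : Cr Sp (h * γ * h⁻¹) (h * e * h⁻¹) := (Cr_conj_iff h γ e).2 hcr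
    have he' : h * e * h⁻¹ ∈ deck u :=
      (deck u).mul_mem ((deck u).mul_mem hh he) ((deck u).inv_mem hh)
    obtain ⟨m, hm, hme⟩ := mem_deck.1 (hdk h hh)
    obtain ⟨d, hd, hde⟩ := mem_deck.1 he'
    rw [hme, hde] at hcr'
    exact ⟨m, hme, (CR3 _ hΓ m hm d hd hcr').1⟩
  have hncπ : ∀ h ∈ deck u, Nc (h * γ * h⁻¹) (piA A) := by
    intro h hh
    obtain ⟨m, hm, hm2⟩ := hhy h hh
    rw [hm]
    exact nc_pi m A hm2
  -- the horocycle
  have hζpos : ∀ t : ℝ, 0 < ((ζ : ℂ) + t).im := by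
    intro t
    simpa using ζ.im_pos
  let zt : ℝ → ℍ := fun t => ⟨(ζ : ℂ) + t, hζpos t⟩
  have hztc : Continuous zt := by
    rw [UpperHalfPlane.isEmbedding_coe.continuous_iff]
    change Continuous (fun t : ℝ => (ζ : ℂ) + (t : ℂ))
    fun_prop
  have hztim : ∀ t, (zt t).im = ζ.im := by
    intro t
    change ((ζ : ℂ) + t).im = ζ.im
    simp
  have hzt0 : zt 0 = ζ := by
    apply UpperHalfPlane.ext
    change (ζ : ℂ) + ((0 : ℝ) : ℂ) = ζ
    simp
  have hztT : ∀ t, PQ.T1 • zt t = zt (t + 1) := by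
    intro t
    apply UpperHalfPlane.ext
    rw [UpperHalfPlane.coe_specialLinearGroup_apply]
    change ((((1 : ℝ) : ℂ)) * ((ζ : ℂ) + t) + ((1 : ℝ) : ℂ)) /
      (((0 : ℝ) : ℂ) * ((ζ : ℂ) + t) + ((1 : ℝ) : ℂ)) = (ζ : ℂ) + ((t + 1 : ℝ) : ℂ)
    push_cast
    simp
    ring
  let η : C(ℝ, ℍ) := ⟨fun t => A • zt t, hztc.const_smul A⟩
  have hη0 : η 0 = A • ζ := by
    change A • zt 0 = _
    rw [hzt0]
  have hηper : ∀ t, η (t + 1) = piA A (η t) := by
    intro t
    change A • zt (t + 1) = (A * PQ.T1 * A⁻¹) • (A • zt t)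
    rw [← hztT t, ← mul_smul, ← mul_smul]
    congr 1
    group
  have hηK : ∀ t, u (η t) ∈ interior K := fun t => hB.inK (zt t) (hztim t).ge
  have hπ := CU1 X p (insert p P) u A hC.uni (mem_insert _ _) hB.cusp
  -- z₁ and the conjugates
  have hz1A : ∀ h ∈ deck u, ¬ Sz (h * γ * h⁻¹) (A • ζ) (W 0 (3 / 4)) := hB.near
  have hsym : ∀ (F : ℍ ≃ₜ ℍ) (z w : ℍ), Sz F z w → Sz F w z := by
    rintro F z w ⟨m, hm, hm2⟩
    exact ⟨m, hm, by rwa [mul_comm]⟩
  have hAζi : u (A • ζ) ∈ interior K := by rw [← hη0]; exact hηK 0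
  have hpath : ∀ g ∈ AA (deck u) Sp γ (piA A), ∃ τ : C(unitInterval, ℍ), τ 0 = W 0 (3 / 4) ∧
      τ 1 = g (W 0 (3 / 4)) ∧ ∀ t, u (τ t) ∈ interior K := by
    rintro g ⟨hg, hgsp⟩
    have hgc : ∀ z, u (g z) = u z := deck_apply hg
    have hsep : ∀ h ∈ deck u, ¬ Sz (h * γ * h⁻¹) (W 0 (3 / 4)) (g (W 0 (3 / 4))) := by
      intro h hh
      have hd := hdk h hh
      have hg' : g⁻¹ * h ∈ deck u := (deck u).mul_mem ((deck u).inv_mem hg) hh
      have hconj : g * ((g⁻¹ * h) * γ * (g⁻¹ * h)⁻¹) * g⁻¹ = h * γ * h⁻¹ := by group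
      -- Aζ and g Aζ
      have s2 : ¬ Sz (h * γ * h⁻¹) (g (A • ζ)) (A • ζ) := by
        intro hcon
        apply hgsp h hh
        obtain ⟨m, hm, hm2⟩ := hhy h hh
        let σ : C(ℝ, ℍ) := ⟨fun t => g (η t), g.continuous.comp η.continuous⟩
        have hσper : ∀ t, σ (t + 1) = (g * piA A * g⁻¹) (σ t) := by
          intro t
          change g (η (t + 1)) = g (piA A (g.symm (g (η t))))
          rw [g.symm_apply_apply, hηper]
        have hnc2 : Nc (h * γ * h⁻¹) (g * piA A * g⁻¹) := by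
          intro hcom
          apply hncπ (g⁻¹ * h) hg'
          rw [← hconj] at hcom
          have e1 : g * ((g⁻¹ * h) * γ * (g⁻¹ * h)⁻¹ * piA A) * g⁻¹ =
              g * (piA A * ((g⁻¹ * h) * γ * (g⁻¹ * h)⁻¹)) * g⁻¹ := by
            calc _ = g * ((g⁻¹ * h) * γ * (g⁻¹ * h)⁻¹) * g⁻¹ * (g * piA A * g⁻¹) := by group
              _ = g * piA A * g⁻¹ * (g * ((g⁻¹ * h) * γ * (g⁻¹ * h)⁻¹) * g⁻¹) := hcom
              _ = _ := by group
          exact mul_left_cancel (mul_right_cancel e1)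
        have hmemg : g * piA A * g⁻¹ ∈ deck u :=
          (deck u).mul_mem ((deck u).mul_mem hg hπ.1) ((deck u).inv_mem hg)
        have key := SZ _ hΓ (h * γ * h⁻¹) hd (g * piA A * g⁻¹) hmemg (piA A) hπ.1
          ⟨m, hm, hm2⟩ hnc2 (hncπ h hh) σ η hσper hηper
          (fun t => hoff _ (by
            change u (g (η t)) ∉ _
            rw [hgc]
            exact hintc _ (hηK t)) h hh)
          (fun t => hoff _ (hintc _ (hηK t)) h hh) 0 0
        apply key.2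
        change Sz (h * γ * h⁻¹) (g (η 0)) (η 0)
        rw [hη0]
        exact hcon
      have s1 : ¬ Sz (h * γ * h⁻¹) (W 0 (3 / 4)) (A • ζ) :=
        fun hcon => hz1A h hh (hsym _ _ _ hcon)
      have s3 : ¬ Sz (h * γ * h⁻¹) (g (A • ζ)) (g (W 0 (3 / 4))) := by
        rw [← hconj]
        intro hcon
        exact hz1A (g⁻¹ * h) hg' ((Sz_conj' hg (hdk _ hg') _ _).1 hcon)
      have o1 : A • ζ ∉ ax (h * γ * h⁻¹) := hoff _ (hintc _ hAζi) h hh
      have o2 : g (A • ζ) ∉ ax (h * γ * h⁻¹) :=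
        hoff _ (by rw [hgc]; exact hintc _ hAζi) h hh
      have s12 := Sz_trans hd o1 s1 (fun hcon => s2 (hsym _ _ _ hcon))
      exact Sz_trans hd o2 s12 s3
    obtain ⟨τ, t0, t1, tc⟩ := (REG X p P u C K γ ω hC (W 0 (3 / 4)) (g (W 0 (3 / 4))) hz1c
      (by rw [hgc]; exact hz1c)).1 hsep
    refine ⟨τ, t0, t1, ?_⟩
    have hcl : IsClopen ((fun t => u (τ t)) ⁻¹' (interior K)) := by
      have hcont : Continuous (fun t => u (τ t)) := (uni_cont hC.uni).comp τ.continuous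
      constructor
      · have e : (fun t => u (τ t)) ⁻¹' (interior K) = (fun t => u (τ t)) ⁻¹' K := by
          ext t
          exact ⟨fun h => interior_subset (s := K) h, fun h => hint _ h (tc t)⟩
        rw [e]
        exact hKc.preimage hcont
      · exact isOpen_interior.preimage hcont
    have huniv := hcl.eq_univ ⟨0, by
      change u (τ 0) ∈ interior K
      rw [t0]; exact hz1i⟩
    intro t
    have : t ∈ (fun t => u (τ t)) ⁻¹' (interior K) := by rw [huniv]; trivial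
    exact this
  -- the discs
  haveI : Nonempty (OpenPartialHomeomorph ℂ X) := ⟨C⟩
  have hdisc := hC.disc
  choose! J hJ1 hJ0 using hdisc
  obtain ⟨U, hU, hUd⟩ := hC.fin.t2_separation
  have hbint : ∀ b ∈ K ∩ insert p P, b ∈ interior K := by
    intro b hb
    apply hint b hb.1
    rintro ⟨z, hz, rfl⟩
    exact hC.tgt z (hsph hz) hb.2
  have hz1B : u (W 0 (3 / 4)) ∉ insert p P := uni_mem hC.uni _
  have hrad : ∀ b ∈ K ∩ insert p P, ∃ r : ℝ, 0 < r ∧ r ≤ 1 ∧ ∀ z ∈ closedBall (0 : ℂ) r,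
      J b z ∈ U b ∧ J b z ∈ interior K ∧ (J b z ∈ K ∩ insert p P → J b z = b) ∧
        J b z ≠ u (W 0 (3 / 4)) := by
    intro b hb
    have h0s : (0 : ℂ) ∈ (J b).source := hJ1 b hb (by simp)
    have hcont := (J b).continuousAt h0s
    have hnh : U b ∩ interior K ∩ ((K ∩ insert p P) \ {b})ᶜ ∩ {u (W 0 (3 / 4))}ᶜ ∈ 𝓝 (J b 0) := by
      rw [hJ0 b hb]
      refine inter_mem (inter_mem (inter_mem ?_ ?_) ?_) ?_
      · exact (hU b).2.mem_nhds (hU b).1
      · exact isOpen_interior.mem_nhds (hbint b hb)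
      · exact (hC.fin.subset diff_subset).isClosed.isOpen_compl.mem_nhds (by simp)
      · refine isOpen_compl_singleton.mem_nhds ?_
        rintro rfl
        exact hz1B hb.2
    obtain ⟨r, hr, hrs⟩ := Metric.nhds_basis_closedBall.mem_iff.1 (hcont hnh)
    refine ⟨min r 1, lt_min hr one_pos, min_le_right _ _, fun z hz => ?_⟩
    have h1 := hrs (closedBall_subset_closedBall (min_le_left _ _) hz)
    obtain ⟨⟨⟨h2, h3⟩, h4⟩, h5⟩ := h1
    refine ⟨h2, h3, fun h6 => ?_, h5⟩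
    by_contra h7
    exact h4 ⟨h6, h7⟩
  choose! r hr0 hr1 hrU hri hrF hrz using hrad
  have hLo : IsOpen (⋃ b ∈ K ∩ insert p P, J b '' ball (0 : ℂ) (r b)) := by
    apply isOpen_biUnion
    intro b hb
    apply (J b).isOpen_image_of_subset_source isOpen_ball
    exact (ball_subset_closedBall.trans (closedBall_subset_closedBall (hr1 b hb))).trans (hJ1 b hb)
  refine ⟨K \ ⋃ b ∈ K ∩ insert p P, J b '' ball (0 : ℂ) (r b), hC.comp.diff hLo, ?_, ?_, ?_⟩
  · rw [Set.disjoint_left]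
    rintro x ⟨hxK, hx⟩ hxB
    apply hx
    rw [mem_iUnion₂]
    exact ⟨x, ⟨hxK, hxB⟩, 0, by simpa using hr0 x ⟨hxK, hxB⟩, hJ0 x ⟨hxK, hxB⟩⟩
  · refine ⟨hz1K, ?_⟩
    rw [mem_iUnion₂]
    rintro ⟨b, hb, z, hz, hzz⟩
    exact hrz b hb z (ball_subset_closedBall hz) hzz
  · intro g hg
    have hgc : ∀ z, u (g z) = u z := deck_apply hg.1
    obtain ⟨τ, t0, t1, tK⟩ := hpath g hg
    have main : ∀ F : Finset X, (F : Set X) ⊆ K ∩ insert p P →
        ∃ σ : C(unitInterval, ℍ), σ 0 = W 0 (3 / 4) ∧ σ 1 = g (W 0 (3 / 4)) ∧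
          ∀ t, u (σ t) ∈ K ∧ ∀ b ∈ F, u (σ t) ∉ J b '' ball (0 : ℂ) (r b) := by
      intro F
      induction F using Finset.induction_on with
      | empty =>
        intro _
        exact ⟨τ, t0, t1, fun t => ⟨interior_subset (tK t), by simp⟩⟩
      | insert b F hbF ih =>
        intro hFs
        have hb : b ∈ K ∩ insert p P := hFs (by simp)
        obtain ⟨σ, s0, s1, hs⟩ := ih (fun x hx => hFs (by simp [Finset.mem_coe.1 hx]))
        have hnD : u (W 0 (3 / 4)) ∉ J b '' closedBall (0 : ℂ) (r b) := by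
          rintro ⟨z, hz, hzz⟩
          exact hrz b hb z hz hzz
        obtain ⟨σ', s0', s1', hs'⟩ := push hC.uni (J b) (r b) (hr1 b hb) (hJ1 b hb)
          (fun z hz hzB => by
            have h1 := hrF b hb z hz ⟨interior_subset (hri b hb z hz), hzB⟩
            have h0s : (0 : ℂ) ∈ (J b).source := hJ1 b hb (by simp)
            refine (J b).injOn (hJ1 b hb (closedBall_subset_closedBall (hr1 b hb) hz)) h0s ?_
            rw [h1, hJ0 b hb])
          (by rw [hJ0 b hb]; exact hb.2) σ (by rw [s0]; exact hnD)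
          (by rw [s1, hgc]; exact hnD)
        refine ⟨σ', s0'.trans s0, s1'.trans s1, fun t => ?_⟩
        rcases hs' t with ⟨e1, e2⟩ | ⟨z, hz, hzz⟩
        · rw [e1]
          refine ⟨(hs t).1, ?_⟩
          intro b' hb'
          rw [Finset.mem_insert] at hb'
          rcases hb' with rfl | hb'
          · exact e2
          · exact (hs t).2 b' hb'
        · have hzc : z ∈ closedBall (0 : ℂ) (r b) := sphere_subset_closedBall hz
          rw [← hzz]
          refine ⟨interior_subset (hri b hb z hzc), ?_⟩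
          intro b' hb'
          rw [Finset.mem_insert] at hb'
          rcases eq_or_ne b' b with rfl | hne
          · rintro ⟨z', hz', hzz'⟩
            have hsrc : closedBall (0 : ℂ) (r b') ⊆ (J b').source :=
              (closedBall_subset_closedBall (hr1 b' hb)).trans (hJ1 b' hb)
            have := (J b').injOn (hsrc (ball_subset_closedBall hz')) (hsrc hzc) hzz'
            subst this
            rw [mem_sphere_zero_iff_norm] at hz
            rw [mem_ball_zero_iff] at hz'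
            linarith
          · have hb'F : b' ∈ F := by
              rcases hb' with h | h
              · exact absurd h hne
              · exact h
            have hb'm : b' ∈ K ∩ insert p P := hFs (by simp [hb'F])
            rintro ⟨z', hz', hzz'⟩
            have h1 := hrU b' hb'm z' (ball_subset_closedBall hz')
            have h2 := hrU b hb z hzc
            rw [hzz'] at h1
            exact Set.disjoint_left.1 (hUd hb'm hb hne) h1 h2
    obtain ⟨σ, s0, s1, hs⟩ := main hC.fin.toFinset (by simp)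
    refine ⟨σ, s0, s1, fun t => ⟨(hs t).1, ?_⟩⟩
    rw [mem_iUnion₂]
    rintro ⟨b, hb, hbb⟩
    exact (hs t).2 b (by simpa using hb) hbb

end Pool.Agent.Helper22.LN
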