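import Pool.Agent.Helper64.LN.Lem

set_option autoImplicit false

/-! Project LN, packet FGA, part 1: covering tools and the radial push in a disc. -/

open Topology Filter Set Metric UpperHalfPlane
open scoped MatrixGroups

namespace Pool.Agent.Helper22.LN

open Pool.Agent.Helper64.LN
open Pool.Agent.Helper64

section
variable {X : Type*} [TopologicalSpace X]

lemma uni_mem {B : Set X} {v : ℍ → X} (hv : Uni B v) (z : ℍ) : v z ∈ Bᶜ := by
  rw [← hv.range]
  exact ⟨z, rfl⟩

lemma uni_isCov {B : Set X} {v : ℍ → X} (hv : Uni B v) :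
    IsCoveringMap (Set.codRestrict v Bᶜ (uni_mem hv)) := by
  have e : v ⁻¹' Bᶜ = univ := by
    ext z
    simp only [mem_preimage, mem_univ, iff_true]
    exact uni_mem hv z
  let g : ℍ ≃ₜ (v ⁻¹' Bᶜ : Set ℍ) :=
    (Homeomorph.Set.univ ℍ).symm.trans (Homeomorph.setCongr e.symm)
  have h := (hv.cov.isCoveringMap_restrictPreimage).comp_homeomorph g
  convert! h using 1

lemma uni_cont {B : Set X} {v : ℍ → X} (hv : Uni B v) : Continuous v := by
  have h := (uni_isCov hv).continuous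
  exact continuous_subtype_val.comp h

/-- The radial factor. -/
noncomputable def fac (r s : ℝ) (z : ℂ) : ℝ := (1 - s) + s * max 1 (r / ‖z‖)

/-- The radial push. -/
noncomputable def kap (J : OpenPartialHomeomorph ℂ X) (r s : ℝ) (x : X) : X :=
  open scoped Classical in
  if x ∈ J '' closedBall (0 : ℂ) r then J ((fac r s (J.symm x) : ℂ) * J.symm x) else x

lemma fac_ge (r s : ℝ) (hs : 0 ≤ s) (z : ℂ) : 1 ≤ fac r s z := by
  unfold fac
  nlinarith [le_max_left 1 (r / ‖z‖)]

lemma fac_eq (r s : ℝ) (z : ℂ) (hz : 0 < ‖z‖) (h : r ≤ ‖z‖) : fac r s z = 1 := by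
  unfold fac
  have : r / ‖z‖ ≤ 1 := by
    rw [div_le_one hz]; exact h
  rw [max_eq_left this]
  ring

lemma fac_norm (r s : ℝ) (hs : 0 ≤ s) (hs1 : s ≤ 1) (z : ℂ) (hz : 0 < ‖z‖) (h : ‖z‖ ≤ r) :
    ‖(fac r s z : ℂ) * z‖ ≤ r := by
  have h1 : (1 : ℝ) ≤ r / ‖z‖ := by
    rw [le_div_iff₀ hz]; linarith
  have h2 : fac r s z = (1 - s) + s * (r / ‖z‖) := by
    unfold fac
    rw [max_eq_right h1]
  have h3 : 0 ≤ fac r s z := by
    have := fac_ge r s hs z
    linarith
  rw [norm_mul, Complex.norm_real, Real.norm_of_nonneg h3, h2]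
  have h4 : ((1 - s) + s * (r / ‖z‖)) * ‖z‖ = (1 - s) * ‖z‖ + s * r := by
    field_simp
  rw [h4]
  nlinarith

lemma fac_norm1 (r : ℝ) (z : ℂ) (hz : 0 < ‖z‖) (h : ‖z‖ ≤ r) :
    ‖(fac r 1 z : ℂ) * z‖ = r := by
  have h1 : (1 : ℝ) ≤ r / ‖z‖ := by
    rw [le_div_iff₀ hz]; linarith
  have h2 : fac r 1 z = r / ‖z‖ := by
    unfold fac
    rw [max_eq_right h1]
    ring
  have h3 : 0 ≤ fac r 1 z := by
    have := fac_ge r 1 zero_le_one z
    linarith
  rw [norm_mul, Complex.norm_real, Real.norm_of_nonneg h3, h2]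
  field_simp

lemma kap_cont [T2Space X] (J : OpenPartialHomeomorph ℂ X) (r : ℝ) (hr1 : r ≤ 1)
    (hJ : closedBall (0 : ℂ) 1 ⊆ J.source) (s₀ : ℝ) (hs : 0 ≤ s₀) (hs1 : s₀ ≤ 1) (x₀ : X)
    (hx₀ : x₀ ≠ J 0) : ContinuousAt (fun q : ℝ × X => kap J r q.1 q.2) (s₀, x₀) := by
  have hJr : closedBall (0 : ℂ) r ⊆ J.source := (closedBall_subset_closedBall hr1).trans hJ
  by_cases hx : x₀ ∈ J.target
  · have hz0 : J.symm x₀ ≠ 0 := by
      intro h
      apply hx₀
      rw [← h, J.right_inv hx]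
    have hzp : 0 < ‖J.symm x₀‖ := norm_pos_iff.2 hz0
    have hcs : ContinuousAt (fun q : ℝ × X => J.symm q.2) (s₀, x₀) :=
      ContinuousAt.comp (g := J.symm) (J.continuousAt_symm hx) continuousAt_snd
    have hcf : ContinuousAt (fun q : ℝ × X => fac r q.1 (J.symm q.2)) (s₀, x₀) := by
      unfold fac
      apply ContinuousAt.add
      · exact continuousAt_const.sub continuousAt_fst
      · apply continuousAt_fst.mul
        refine Filter.Tendsto.max tendsto_const_nhds ?_
        exact continuousAt_const.div hcs.norm (by simpa using hz0)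
    have hcm : ContinuousAt (fun q : ℝ × X => (fac r q.1 (J.symm q.2) : ℂ) * J.symm q.2)
        (s₀, x₀) := by
      apply ContinuousAt.mul _ hcs
      exact Complex.continuous_ofReal.continuousAt.comp hcf
    have hsrc : (fac r s₀ (J.symm x₀) : ℂ) * J.symm x₀ ∈ J.source := by
      by_cases h : r ≤ ‖J.symm x₀‖
      · rw [fac_eq r s₀ _ hzp h]
        simpa using J.map_target hx
      · apply hJr
        rw [mem_closedBall_zero_iff]
        exact fac_norm r s₀ hs hs1 _ hzp (le_of_lt (not_le.1 h))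
    have hcJ : ContinuousAt
        (fun q : ℝ × X => J ((fac r q.1 (J.symm q.2) : ℂ) * J.symm q.2)) (s₀, x₀) :=
      ContinuousAt.comp (g := J) (J.continuousAt hsrc) hcm
    refine hcJ.congr ?_
    have hev : ∀ᶠ q : ℝ × X in 𝓝 (s₀, x₀), q.2 ∈ J.target :=
      continuousAt_snd.eventually (J.open_target.mem_nhds hx)
    filter_upwards [hev] with q hq
    unfold kap
    by_cases hD : q.2 ∈ J '' closedBall (0 : ℂ) r
    · rw [if_pos hD]
    · rw [if_neg hD]
      have h1 : r < ‖J.symm q.2‖ := by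
        by_contra h
        apply hD
        exact ⟨J.symm q.2, by rw [mem_closedBall_zero_iff]; exact not_lt.1 h, J.right_inv hq⟩
      by_cases h2 : 0 < ‖J.symm q.2‖
      · rw [fac_eq r q.1 _ h2 h1.le]
        simp [J.right_inv hq]
      · have h3 : J.symm q.2 = 0 := by
          rw [← norm_le_zero_iff]; exact not_lt.1 h2
        rw [h3, mul_zero, ← h3, J.right_inv hq]
  · have hcl : IsClosed (J '' closedBall (0 : ℂ) r) :=
      ((isCompact_closedBall (0 : ℂ) r).image_of_continuousOn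
        (J.continuousOn.mono hJr)).isClosed
    have hnD : x₀ ∉ J '' closedBall (0 : ℂ) r := by
      rintro ⟨z, hz, rfl⟩
      exact hx (J.map_source (hJr hz))
    have hev : ∀ᶠ q : ℝ × X in 𝓝 (s₀, x₀), q.2 ∈ (J '' closedBall (0 : ℂ) r)ᶜ :=
      continuousAt_snd.eventually (hcl.isOpen_compl.mem_nhds hnD)
    have : ContinuousAt (fun q : ℝ × X => q.2) (s₀, x₀) := continuousAt_snd
    refine this.congr ?_
    filter_upwards [hev] with q hq
    unfold kap
    rw [if_neg hq]

/-- Pushing a path out of a disc around a puncture. -/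
theorem push [T2Space X] {B : Set X} {u : ℍ → X} (hu : Uni B u)
    (J : OpenPartialHomeomorph ℂ X) (r : ℝ) (hr1 : r ≤ 1)
    (hJ : closedBall (0 : ℂ) 1 ⊆ J.source)
    (hDB : ∀ z ∈ closedBall (0 : ℂ) r, J z ∈ B → z = 0) (hbB : J 0 ∈ B)
    (τ : C(unitInterval, ℍ)) (h0 : u (τ 0) ∉ J '' closedBall (0 : ℂ) r)
    (h1 : u (τ 1) ∉ J '' closedBall (0 : ℂ) r) :
    ∃ σ : C(unitInterval, ℍ), σ 0 = τ 0 ∧ σ 1 = τ 1 ∧ ∀ t,
      (u (σ t) = u (τ t) ∧ u (τ t) ∉ J '' ball (0 : ℂ) r) ∨ u (σ t) ∈ J '' sphere (0 : ℂ) r := by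
  have hJr : closedBall (0 : ℂ) r ⊆ J.source := (closedBall_subset_closedBall hr1).trans hJ
  have hne : ∀ t, u (τ t) ≠ J 0 := fun t h => uni_mem hu (τ t) (h ▸ hbB)
  -- values of kap
  have hk : ∀ (s : ℝ) (x : X), 0 ≤ s → s ≤ 1 → x ∉ B → kap J r s x ∉ B := by
    intro s x hs hs1 hx
    unfold kap
    by_cases hD : x ∈ J '' closedBall (0 : ℂ) r
    · rw [if_pos hD]
      obtain ⟨z, hz, rfl⟩ := hD
      rw [J.left_inv (hJr hz)]
      have hz0 : z ≠ 0 := by
        rintro rfl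
        exact hx hbB
      have hzp : 0 < ‖z‖ := norm_pos_iff.2 hz0
      intro hcon
      have h2 := hDB _ (by
        rw [mem_closedBall_zero_iff]
        exact fac_norm r s hs hs1 z hzp (by simpa using hz)) hcon
      rcases mul_eq_zero.1 h2 with h3 | h3
      · have h4 := fac_ge r s hs z
        have h5 : fac r s z = 0 := by exact_mod_cast h3
        linarith
      · exact hz0 h3
    · rw [if_neg hD]
      exact hx
  let Hf : unitInterval × unitInterval → (Bᶜ : Set X) := fun q =>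
    ⟨kap J r (q.1 : ℝ) (u (τ q.2)), hk _ _ q.1.2.1 q.1.2.2 (uni_mem hu _)⟩
  have hHc : Continuous Hf := by
    apply Continuous.subtype_mk
    rw [continuous_iff_continuousAt]
    intro q
    have e1 : ContinuousAt (fun q : unitInterval × unitInterval => ((q.1 : ℝ), u (τ q.2))) q := by
      apply Continuous.continuousAt
      have := uni_cont hu
      fun_prop
    exact ContinuousAt.comp (g := fun q : ℝ × X => kap J r q.1 q.2)
      (f := fun q : unitInterval × unitInterval => ((q.1 : ℝ), u (τ q.2)))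
      (kap_cont J r hr1 hJ _ q.1.2.1 q.1.2.2 _ (hne _)) e1
  have hk0 : ∀ x, x ≠ J 0 → kap J r 0 x = x := by
    intro x hx
    unfold kap
    by_cases hD : x ∈ J '' closedBall (0 : ℂ) r
    · rw [if_pos hD]
      obtain ⟨z, hz, rfl⟩ := hD
      rw [J.left_inv (hJr hz)]
      have : fac r 0 z = 1 := by
        unfold fac; simp
      rw [this]
      simp
    · rw [if_neg hD]
  have cov := uni_isCov hu
  have hH0 : ∀ a, (⟨Hf, hHc⟩ : C(unitInterval × unitInterval, (Bᶜ : Set X))) (0, a) =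
      Set.codRestrict u Bᶜ (uni_mem hu) (τ a) := by
    intro a
    apply Subtype.ext
    change kap J r ((0 : unitInterval) : ℝ) (u (τ a)) = u (τ a)
    exact hk0 _ (hne a)
  let G := cov.liftHomotopy ⟨Hf, hHc⟩ τ hH0
  have hG : ∀ s t, u (G (s, t)) = kap J r (s : ℝ) (u (τ t)) := by
    intro s t
    have := congrFun (cov.liftHomotopy_lifts ⟨Hf, hHc⟩ τ hH0) (s, t)
    exact congrArg Subtype.val this
  have hG0 : ∀ t, G (0, t) = τ t := fun t => cov.liftHomotopy_zero ⟨Hf, hHc⟩ τ hH0 t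
  have hend : ∀ t, u (τ t) ∉ J '' closedBall (0 : ℂ) r → G (1, t) = τ t := by
    intro t ht
    rw [← hG0 t]
    refine cov.const_of_comp (g := fun s : unitInterval => G (s, t)) (by fun_prop) ?_ 1 0
    intro s s'
    apply Subtype.ext
    change u (G (s, t)) = u (G (s', t))
    rw [hG, hG]
    unfold kap
    rw [if_neg ht, if_neg ht]
  refine ⟨⟨fun t => G (1, t), by fun_prop⟩, hend 0 h0, hend 1 h1, ?_⟩
  intro t
  change (u (G (1, t)) = u (τ t) ∧ _) ∨ u (G (1, t)) ∈ _
  rw [hG]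
  change (kap J r 1 (u (τ t)) = u (τ t) ∧ _) ∨ kap J r 1 (u (τ t)) ∈ _
  by_cases hD : u (τ t) ∈ J '' closedBall (0 : ℂ) r
  · right
    obtain ⟨z, hz, hzx⟩ := hD
    have hz0 : z ≠ 0 := by
      rintro rfl
      exact hne t hzx.symm
    have hzp : 0 < ‖z‖ := norm_pos_iff.2 hz0
    refine ⟨(fac r 1 z : ℂ) * z, ?_, ?_⟩
    · rw [mem_sphere_zero_iff_norm]
      exact fac_norm1 r z hzp (by simpa using hz)
    · unfold kap
      rw [← hzx, if_pos ⟨z, hz, rfl⟩, J.left_inv (hJr hz)]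
  · left
    constructor
    · unfold kap
      rw [if_neg hD]
    · rintro ⟨z, hz, hzx⟩
      exact hD ⟨z, ball_subset_closedBall hz, hzx⟩

end

end Pool.Agent.Helper22.LN
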