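import Pool.Agent.Helper61.LN.Goals

/-!
# Packet LN-SUB (project LN, MP_c65973_gt): the colouring functor preserves multiples of indicators of subgroups
-/

set_option autoImplicit false

namespace Pool.Agent.Helper22.LN.SUB

open Pool.Agent.Helper31.Sk Pool.Agent.Helper61.LN

section
variable {X : Type} [AddCommGroup X]

theorem ins_add (i : ℕ) (a b : X) (x y : ℕ → X) :
    insF i (a + b) (a + b) (x + y) = insF i a a x + insF i b b y := by
  funext j
  simp only [insF, Pi.add_apply]
  split_ifs <;> rfl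

theorem ins_zero (i : ℕ) : insF i (0 : X) 0 (0 : ℕ → X) = 0 := by
  funext j
  simp only [insF, Pi.zero_apply]
  split_ifs <;> rfl

theorem ins_neg (i : ℕ) (a : X) (x : ℕ → X) : insF i (-a) (-a) (-x) = -insF i a a x := by
  funext j
  simp only [insF, Pi.neg_apply]
  split_ifs <;> rfl

theorem del_add (i : ℕ) (x y : ℕ → X) : delF i (x + y) = delF i x + delF i y := by
  funext j
  simp only [delF, Pi.add_apply]
  split_ifs <;> rfl

theorem del_zero (i : ℕ) : delF i (0 : ℕ → X) = 0 := by
  funext j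
  simp only [delF, Pi.zero_apply]
  split_ifs <;> rfl

theorem del_neg (i : ℕ) (x : ℕ → X) : delF i (-x) = -delF i x := by
  funext j
  simp only [delF, Pi.neg_apply]
  split_ifs <;> rfl

/-- the map of a crossing -/
def fP (X : Type) [AddCommGroup X] (i : ℕ) : (ℕ → X) × X →+ (ℕ → X) × X where
  toFun p := (setF i (p.1 i + p.1 i - p.1 (i + 1)) (p.1 i) p.1, p.2)
  map_zero' := by
    refine Prod.ext ?_ rfl
    funext j
    simp only [setF, Prod.fst_zero, Pi.zero_apply]
    split_ifs <;> simp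
  map_add' p p' := by
    refine Prod.ext ?_ rfl
    funext j
    simp only [setF, Prod.fst_add, Pi.add_apply]
    split_ifs
    · abel
    · rfl
    · rfl

def fN (X : Type) [AddCommGroup X] (i : ℕ) : (ℕ → X) × X →+ (ℕ → X) × X where
  toFun p := (setF i (p.1 (i + 1)) (p.1 (i + 1) + p.1 (i + 1) - p.1 i) p.1, p.2)
  map_zero' := by
    refine Prod.ext ?_ rfl
    funext j
    simp only [setF, Prod.fst_zero, Pi.zero_apply]
    split_ifs <;> simp
  map_add' p p' := by
    refine Prod.ext ?_ rfl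
    funext j
    simp only [setF, Prod.fst_add, Pi.add_apply]
    split_ifs
    · rfl
    · abel
    · rfl

/-- the subgroup of a cap -/
def uCap (i : ℕ) (U : AddSubgroup ((ℕ → X) × X)) : AddSubgroup ((ℕ → X) × X) where
  carrier := {p | p.1 i = p.1 (i + 1) ∧ (delF i p.1, p.2) ∈ U}
  zero_mem' := by
    refine ⟨rfl, ?_⟩
    show (delF i (0 : ℕ → X), (0 : X)) ∈ U
    rw [del_zero]
    exact U.zero_mem
  add_mem' := by
    rintro p p' ⟨h1, h2⟩ ⟨h3, h4⟩
    refine ⟨?_, ?_⟩
    · show p.1 i + p'.1 i = p.1 (i + 1) + p'.1 (i + 1)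
      rw [h1, h3]
    · show (delF i (p.1 + p'.1), p.2 + p'.2) ∈ U
      rw [del_add]
      exact U.add_mem h2 h4
  neg_mem' := by
    rintro p ⟨h1, h2⟩
    refine ⟨?_, ?_⟩
    · show -p.1 i = -p.1 (i + 1)
      rw [h1]
    · show (delF i (-p.1), -p.2) ∈ U
      rw [del_neg]
      exact U.neg_mem h2

/-- the subgroup of a cup -/
def uCup (i : ℕ) (U : AddSubgroup ((ℕ → X) × X)) : AddSubgroup ((ℕ → X) × X) where
  carrier := {p | ∃ a : X, (insF i a a p.1, p.2) ∈ U}
  zero_mem' := by
    refine ⟨0, ?_⟩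
    show (insF i (0 : X) 0 (0 : ℕ → X), (0 : X)) ∈ U
    rw [ins_zero]
    exact U.zero_mem
  add_mem' := by
    rintro p p' ⟨a, h1⟩ ⟨b, h2⟩
    refine ⟨a + b, ?_⟩
    show (insF i (a + b) (a + b) (p.1 + p'.1), p.2 + p'.2) ∈ U
    rw [ins_add]
    exact U.add_mem h1 h2
  neg_mem' := by
    rintro p ⟨a, h1⟩
    refine ⟨-a, ?_⟩
    show (insF i (-a) (-a) (-p.1), -p.2) ∈ U
    rw [ins_neg]
    exact U.neg_mem h1

end

theorem one (q : ℕ) [NeZero q] (i : ℕ) (g : Gen) (φ : (ℕ → ZMod q) → ZMod q → ℕ)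
    (h : SubInd q φ) : SubInd q (fun x c => op i g (fun y => φ y c) x) := by
  classical
  obtain ⟨κ, U, h1, h2⟩ := h
  cases g with
  | cup =>
    refine ⟨∑ b : ZMod q, if (insF i b b 0, (0 : ZMod q)) ∈ U then κ else 0, uCup i U, ?_, ?_⟩
    · rintro x c ⟨a, ha⟩
      show ∑ b : ZMod q, φ (insF i b b x) c = _
      rw [← Equiv.sum_comp (Equiv.addRight a)]
      refine Finset.sum_congr rfl fun b _ => ?_
      have e : (insF i ((Equiv.addRight a) b) ((Equiv.addRight a) b) x, c) =
          (insF i b b 0, (0 : ZMod q)) + (insF i a a x, c) := by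
        refine Prod.ext ?_ ?_
        · show insF i (b + a) (b + a) x = insF i b b 0 + insF i a a x
          rw [← ins_add, zero_add]
        · show c = 0 + c
          rw [zero_add]
      by_cases hb : (insF i b b 0, (0 : ZMod q)) ∈ U
      · rw [if_pos hb]
        refine h1 _ _ ?_
        rw [e]
        exact U.add_mem hb ha
      · rw [if_neg hb]
        refine h2 _ _ fun hm => hb ?_
        rw [e] at hm
        exact (U.add_mem_cancel_right ha).1 hm
    · intro x c hx
      show ∑ b : ZMod q, φ (insF i b b x) c = 0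
      refine Finset.sum_eq_zero fun b _ => h2 _ _ fun hm => hx ⟨b, hm⟩
  | cap =>
    refine ⟨κ, uCap i U, ?_, ?_⟩
    · rintro x c ⟨h3, h4⟩
      show (if x i = x (i + 1) then φ (delF i x) c else 0) = κ
      rw [if_pos h3]
      exact h1 _ _ h4
    · intro x c hx
      show (if x i = x (i + 1) then φ (delF i x) c else 0) = 0
      by_cases h3 : x i = x (i + 1)
      · rw [if_pos h3]
        exact h2 _ _ fun h4 => hx ⟨h3, h4⟩
      · rw [if_neg h3]
  | pos =>
    exact ⟨κ, U.comap (fP (ZMod q) i), fun x c hx => h1 _ _ hx, fun x c hx => h2 _ _ hx⟩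
  | neg =>
    exact ⟨κ, U.comap (fN (ZMod q) i), fun x c hx => h1 _ _ hx, fun x c hx => h2 _ _ hx⟩

theorem t : S_SUB := by
  intro q _ w φ h
  induction w with
  | nil => exact h
  | cons s w ih =>
    obtain ⟨i, g⟩ := s
    exact one q i g _ ih

end Pool.Agent.Helper22.LN.SUB
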