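import Pool.Agent.Helper61.LN.Goals

/-!
# Packet LN-TT3 (project LN, MP_c65973_gt): colourings and the unknotting number of trefoil sums
-/

set_option autoImplicit false

namespace Pool.Agent.Helper22.LN.TT3

open Pool.Agent.Helper31.Sk Pool.Agent.Helper61.LN

theorem key (φ : (ℕ → ZMod 3) → ℕ) (x : ℕ → ZMod 3) (c : ZMod 3) :
    ev [(0, .neg), (0, .neg), (0, .neg), (1, .cap)] φ (insF 1 c c x) = φ x := by
  have h3 : (3 : ZMod 3) = 0 := rfl
  simp only [ev, op]
  rw [if_pos]
  · congr 1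
    funext j
    rcases j with _ | j
    · simp only [delF, setF, insF]
      simp
      linear_combination (c - x 0) * h3
    · simp [delF, setF, insF]
  · simp only [setF, insF]
    simp
    linear_combination (c - x 0) * h3

theorem t1 : S_TT3 := by
  intro φ x
  have e : ev (TT 3) φ x = ∑ c : ZMod 3,
      ev [(0, .neg), (0, .neg), (0, .neg), (1, .cap)] φ (insF 1 c c x) := rfl
  rw [e, Finset.sum_congr rfl fun c _ => key φ x c, Finset.sum_const, Finset.card_univ]
  rfl

/-- the pieces after the first cup -/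
def R : ℕ → Word
  | 0 => [(0, .cap)]
  | n + 1 => TT 3 ++ R n

/-- the trefoil tangle with one crossing changed -/
def TT' : Word := [(1, .cup), (0, .pos), (0, .neg), (0, .neg), (1, .cap)]

def R' : ℕ → Word
  | 0 => [(0, .cap)]
  | n + 1 => TT' ++ R' n

theorem iter (n : ℕ) : (con (TT 3))^[n] unknot = (0, .cup) :: R n := by
  induction n with
  | zero => rfl
  | succ n ih =>
    rw [Function.iterate_succ_apply', ih]
    rfl

theorem chg (n : ℕ) : Changes (R n) (R' n) n := by
  induction n with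
  | zero => exact Changes.keep _ _ _ _ Changes.nil
  | succ n ih =>
    exact Changes.keep (1, .cup) _ _ _ (Changes.chg 0 .neg _ _ _ (Or.inr rfl)
      (Changes.keep (0, .neg) _ _ _ (Changes.keep (0, .neg) _ _ _
        (Changes.keep (1, .cap) _ _ _ ih))))

theorem isoTT : Iso 2 2 TT' [] := by
  have h1 : Iso 2 2 TT' [(1, .cup), (0, .neg), (1, .cap)] :=
    stq 1 (Or.inl (Elem.r2P 0)) rfl rfl rfl
  have h2 : Iso 2 2 [(1, .cup), (0, .neg), (1, .cap)] [(0, .cup), (1, .pos), (1, .cap)] :=
    stq 0 (Or.inr (Elem.cupP 0)) rfl rfl rfl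
  have h3 : Iso 2 2 [(0, .cup), (1, .pos), (1, .cap)] [(0, .cup), (1, .cap)] :=
    stq 1 (Or.inl (Elem.r1capP 1)) rfl rfl rfl
  have h4 : Iso 2 2 [(0, .cup), (1, .cap)] [] :=
    stq 0 (Or.inl (Elem.zig 0)) rfl rfl rfl
  exact iso_trans h1 (iso_trans h2 (iso_trans h3 h4))

theorem legR (n : ℕ) : Legal 2 (R' n) 0 := by
  induction n with
  | zero => exact lgt_of rfl
  | succ n ih => exact legal_append.2 ⟨2, lgt_of rfl, ih⟩

theorem isoR (n : ℕ) : Iso 2 0 (R' n) [(0, .cap)] := by
  induction n with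
  | zero => exact iso_refl _ _ _
  | succ n ih => exact iso_trans (iso_right isoTT (legR n)) ih

theorem t2 : S_UNU := by
  intro n
  rw [iter]
  refine sInf_le ⟨n, (0, .cup) :: R n, (0, .cup) :: R' n, rfl, iso_refl _ _ _,
    Changes.keep _ _ _ _ (chg n), ?_⟩
  exact iso_left (u := [(0, .cup)]) (isoR n) (lgt_of rfl)

end Pool.Agent.Helper22.LN.TT3
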